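import Pool.Agent.Y787.FV.Stm2
import Pool.Agent.Y970.FV.SU

set_option autoImplicit false

/-!
# Sufficiency for free Boolean algebras, from the sublattice generated by the free elements
-/

namespace Pool.Agent.Y185.FV

open Pool.Agent.Y787.FV

universe u v w

/-- the sublattice generated by the elements `ι x` -/
def gen {X F : Type w} [Lattice F] (ι : X → F) : Sublattice F := sInf {S | ∀ x, ι x ∈ S}

theorem mem_gen {X F : Type w} [Lattice F] (ι : X → F) (x : X) : ι x ∈ gen ι := by
  unfold gen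
  rw [Sublattice.mem_sInf]
  intro S hS
  exact hS x

theorem gen_le {X F : Type w} [Lattice F] {ι : X → F} {S : Sublattice F} (hS : ∀ x, ι x ∈ S) :
    gen ι ≤ S := sInf_le hS

theorem rel {X F : Type w} [BooleanAlgebra F] {ι : X → F} (hι : IsFreeBoolean ι) :
    IsRelativelyFree (fun x => (⟨ι x, mem_gen ι x⟩ : gen ι)) := by
  constructor
  · intro S hS a
    have h1 : gen ι ≤ S.map (gen ι).subtype := gen_le fun x => ⟨_, hS x, rfl⟩
    obtain ⟨b, hb, hba⟩ := h1 a.2
    have h2 : b = a := Subtype.ext hba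
    rw [← h2]
    exact hb
  · intro f
    obtain ⟨g, hg⟩ := hι.extends_map F (fun x => (f x : F))
    have h1 : gen ι ≤ (gen ι).comap g.toLatticeHom := by
      refine gen_le fun x => ?_
      change g (ι x) ∈ gen ι
      rw [hg x]
      exact (f x).2
    refine ⟨{ toFun := fun a => ⟨g a, h1 a.2⟩
              map_sup' := fun a b => Subtype.ext (map_sup g (a : F) (b : F))
              map_inf' := fun a b => Subtype.ext (map_inf g (a : F) (b : F)) }, fun x => ?_⟩
    exact Subtype.ext (hg x)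

theorem nontriv {X F : Type w} [BooleanAlgebra F] {ι : X → F} (hι : IsFreeBoolean ι)
    [Infinite X] : Nontrivial (gen ι) := by
  obtain ⟨x, y, hxy⟩ := exists_pair_ne X
  obtain ⟨g, hg⟩ := hι.extends_map (Set PUnit.{w + 1}) (fun z => {_u | z = x})
  refine ⟨⟨⟨ι x, mem_gen ι x⟩, ⟨ι y, mem_gen ι y⟩, fun h => ?_⟩⟩
  have h1 : ι x = ι y := congrArg Subtype.val h
  have h2 := hg x
  rw [h1, hg y] at h2
  have h3 : PUnit.unit ∈ ({_u | x = x} : Set PUnit.{w + 1}) := rfl
  rw [← h2] at h3
  exact hxy h3.symm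

theorem bs : t_BS.{u, w} := by
  intro P _ hP1 hP2 X F _ ι hι hX j hj
  obtain ⟨φ, hφ⟩ := Pool.Agent.Y970.FV.su P hP1 hP2 X (gen ι) _ (rel hι) (nontriv hι) hX j hj
  exact ⟨fun p => (φ p : F), fun p q => hφ p q⟩

end Pool.Agent.Y185.FV
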